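import Pool.Agent.Lib.MP_6bc78b_nt.MS.GL.Final

set_option autoImplicit false

open MeasureTheory ProbabilityTheory

namespace Pool.Agent.Results.MP_6bc78b_nt.GaussianLaw

open Pool.Agent.Lib.MP_6bc78b_nt Pool.Agent.Lib.MP_6bc78b_nt.MS

/-- The normalized logarithm of the derivative, `log (|Z'(γ)| / log γ) / √((log log γ) / 2)`. -/
noncomputable def YY (γ : ℝ) : ℝ :=
  Real.log (|deriv hardyZ γ| / Real.log γ) / Real.sqrt (Real.log (Real.log γ) / 2)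

/-- Assume the Riemann hypothesis. Let `μ` be the standard normal distribution and `N(T) = NZ T`
the number of zeros of Hardy's function in `(0, T]`, counted with multiplicity.
(i) For every open set `U` of real numbers, `ε > 0` and all large `T`, at least
`(max (2/3 μ(U)) (μ(U) - 0.29295) - ε) N(T)` simple zeros `3 < γ ≤ T` satisfy `YY γ ∈ U`.
(ii) For all real `x`, `ε > 0` and all large `T`, at most `(μ((x, ∞)) + ε) N(T)` simple zeros
`3 < γ ≤ T` satisfy `YY γ > x`. -/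
theorem result (hRH : RiemannHypothesis) :
    (∀ (U : Set ℝ) (ε : ℝ), IsOpen U → 0 < ε → ∃ T0 : ℝ, ∀ T : ℝ, T0 ≤ T →
      (max (2 / 3 * (gaussianReal 0 1).real U) ((gaussianReal 0 1).real U - 0.29295) - ε) * NZ T ≤
        ({γ : ℝ | 3 < γ ∧ γ ≤ T ∧ hardyZ γ = 0 ∧ deriv hardyZ γ ≠ 0 ∧ YY γ ∈ U}.ncard : ℝ)) ∧
    (∀ x ε : ℝ, 0 < ε → ∃ T0 : ℝ, ∀ T : ℝ, T0 ≤ T →
      ({γ : ℝ | 3 < γ ∧ γ ≤ T ∧ hardyZ γ = 0 ∧ deriv hardyZ γ ≠ 0 ∧ x < YY γ}.ncard : ℝ) ≤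
        ((gaussianReal 0 1).real (Set.Ioi x) + ε) * NZ T) :=
  ⟨fun U ε hU hε => MS.GL.opvF hRH U ε hU hε, fun x ε hε => MS.GL.upnF hRH x ε hε⟩

end Pool.Agent.Results.MP_6bc78b_nt.GaussianLaw
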