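import Pool.Agent.Lib.MP_6bc78b_nt.LW.H95.Short

set_option autoImplicit false

open Pool.Agent.Lib.MP_6bc78b_nt Pool.Agent.Lib.MP_6bc78b_nt.LW

namespace Pool.Agent.Results.MP_6bc78b_nt.ShortWindows

/-- Zeros of Hardy's function in short windows, under the Riemann hypothesis.

`NW t h` is the number of zeros in `(t, t + h]`, counted with multiplicity, `NWs t h` the number of
simple ones, `NW2 t h` the sum of `m(γ) ^ 2` and `NWk k c t h` the sum of
`m(γ) * (max (m(γ) - c) 0) ^ (2 k)` over the distinct zeros `γ` in `(t, t + h]`.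

Let `0 < a < 1`, `k ≥ 1`, `lam > 0` with `k * lam < (1 + a) / 2`, and `ε > 0`. Then for all large `T`
the three bounds below hold for the windows `(t, t + T^a]` with `T ≤ t ≤ 2 T`, except for a set of
`t` of measure at most `T^(1 - δ)`; if `k * lam < a` they hold for every `t` in `[T, 2 T]`. -/
theorem result (hRH : RiemannHypothesis) (a lam ε : ℝ) (k : ℕ) (ha0 : 0 < a) (ha1 : a < 1)
    (hε : 0 < ε) (hk : 1 ≤ k) (hlam : 0 < lam) (hkl : (k : ℝ) * lam < (1 + a) / 2) :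
    ∃ δ T0 : ℝ, 0 < δ ∧ ∀ T : ℝ, T0 ≤ T → ∃ S : Set ℝ, MeasurableSet S ∧
      MeasureTheory.volume S ≤ ENNReal.ofReal (T ^ (1 - δ)) ∧ ((k : ℝ) * lam < a → S = ∅) ∧
      ∀ t : ℝ, T ≤ t → t ≤ 2 * T → t ∉ S →
        NW2 t (T ^ a) ≤ (1 / lam + lam / 3 + ε) * NW t (T ^ a) ∧
        (2 - 1 / lam - lam / 3 - ε) * NW t (T ^ a) ≤ NWs t (T ^ a) ∧
        NWk k (1 / lam + ε) t (T ^ a) ≤ ((k.factorial : ℝ) / 3 ^ k + ε) * NW t (T ^ a) :=
  LW.H95.shortF hRH a lam ε k ha0 ha1 hε hk hlam hkl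

end Pool.Agent.Results.MP_6bc78b_nt.ShortWindows
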