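import Pool.Agent.Lib.MP_6bc78b_nt.GP.H6.Final11

set_option autoImplicit false

open MeasureTheory

namespace Pool.Agent.Results.MP_6bc78b_nt.SimpleGaps

open Pool.Agent.Lib.MP_6bc78b_nt

/-- Assume the Riemann hypothesis. For every `ε > 0` there is a constant `h₀ ≥ 1` such that for
every `A > 0` and all large `T`, for all `t` in `[0, T]` outside a set of measure at most `ε T`,
every window `(t, t + h)` with `h₀ ≤ h ≤ T` contains more than `A h` zeros `γ` of Hardy's function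
with `|Z'(γ)| ≥ (log T) exp (((log log T) (log log log T))^(1/2))`; these are simple. -/
theorem result (hRH : RiemannHypothesis) :
    ∀ ε : ℝ, 0 < ε → ∃ h₀ : ℝ, 1 ≤ h₀ ∧ ∀ A : ℝ, 0 < A → ∃ T₀ : ℝ, 16 < T₀ ∧
      ∀ T : ℝ, T₀ ≤ T →
      volume {t : ℝ | 0 ≤ t ∧ t ≤ T ∧ ∃ h : ℝ, h₀ ≤ h ∧ h ≤ T ∧
        (({γ : ℝ | t < γ ∧ γ < t + h ∧ hardyZ γ = 0 ∧
          Real.log T * Real.exp (Real.sqrt
            (Real.log (Real.log T) * Real.log (Real.log (Real.log T)))) ≤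
              |deriv hardyZ γ|}.ncard : ℕ) : ℝ) ≤ A * h} ≤
      ENNReal.ofReal (ε * T) :=
  GP.H6.window11t hRH

end Pool.Agent.Results.MP_6bc78b_nt.SimpleGaps
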