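import Pool.Agent.Lib.MP_6bc78b_nt.MS.Final

set_option autoImplicit false

namespace Pool.Agent.Results.MP_6bc78b_nt.SimpleZeros

open Pool.Agent.Lib.MP_6bc78b_nt Pool.Agent.Lib.MP_6bc78b_nt.MS

/-- Assume the Riemann hypothesis. Let `NZ T` be the number of zeros of Hardy's function in
`(0, T]`, counted with multiplicity. For all large `T`, the number `NZs T` of simple zeros is at
least `0.70705 NZ T`, the number `NZd T` of distinct zeros is at least `0.8535 NZ T`, and the
number `NZm k T` of zeros of multiplicity at least `k`, counted with multiplicity, is at most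
`0.0234 NZ T` for `k = 3` and at most `0.0064 NZ T` for `k = 4`. -/
theorem result (hRH : RiemannHypothesis) : ∃ T0 : ℝ, ∀ T : ℝ, T0 ≤ T →
    0.70705 * NZ T ≤ NZs T ∧ 0.8535 * NZ T ≤ NZd T ∧
      NZm 3 T ≤ 0.0234 * NZ T ∧ NZm 4 T ≤ 0.0064 * NZ T :=
  final2 hRH

end Pool.Agent.Results.MP_6bc78b_nt.SimpleZeros
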